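import Pool.Agent.K6.H10.SY.Stmt

/-!
# MP_2fc7fa_gt, Q1: segments from the forms which are positive on a pencil

Let `ω` be a symplectic form on `CP²` in the class `a` of the Fubini-Study form, and let `s₀`, `s₁`
be homogeneous polynomials of degree `d > 0` such that `ω (v, i v) > 0` for all complex directions
`v` with `s₀ ds₁ (v) = s₁ ds₀ (v)`, the directions which are tangent to the fibres of the pencil
`s₀ : s₁`.  (At the base points and at the singular points of the fibres these are all directions;
nothing else is assumed there.)  Then for all small `ε > 0` all forms on the line segment from `ω`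
to the Kähler form `dd^c log (|s₀|² + |s₁|² + ε |z|^{2d}) / d`, which is in the same class, are
symplectic.

Differential forms on `CP²` are treated as forms on `ℂ³ \ {0}` which are invariant under the
multiplications by nonzero complex numbers and vanish on the directions of the orbits
(`IsForm`, `IsOne`, `Forms` in `Pool.Agent.K6.H10.SY.Defs`; the other definitions are in
`Pool.Agent.K6.H10.SY.Stmt`).
-/

set_option autoImplicit false

noncomputable section

namespace Pool.Agent.Results.MP_2fc7fa_gt.PencilSegment

open Pool.Agent.K6.H10.SY

/-- A symplectic form in the class which is positive on a pencil is joined to Kähler forms of the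
pencil by line segments of symplectic forms. -/
theorem result (d : ℕ) (hd : 0 < d) (P : Fin 2 → MvPolynomial (Fin 3) ℂ)
    (hP : ∀ j, (P j).IsHomogeneous d) (Ω : Forms) (hΩ : Ω ∈ S)
    (hp : PositiveOn (pencilDirections P) Ω) :
    ∃ ε₀ : ℝ, 0 < ε₀ ∧ ∀ ε, 0 < ε → ε < ε₀ →
      ∃ τ : Forms, τ.val = tau d (fn P) ε ∧ IsKaehler τ ∧ SegmentIn Ω τ :=
  pencil_segment hd hP hΩ hp

end Pool.Agent.Results.MP_2fc7fa_gt.PencilSegment
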