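import Pool.Agent.K6.H10.SU.Res2

/-!
# MP_2fc7fa_gt, Q1: the symplectic forms which tame an `SU(2)`-invariant structure

Let `S` be the space of symplectic forms on `CP²` in the class `a` of the Fubini-Study form, with
the smooth topology.  For a continuous real function `a` and a continuous complex function `b` of
`T = |z₀|² / |z|²` let

`J (z) v = a(T) i v + b(T) z₀³ |z|⁻⁴ (z × v)¯`

(`J` in `Pool.Agent.K6.H10.SU.Def`).  On the orthogonal complement of `z` it satisfies
`J² = - (a² + T³ |b|²)` (`J_sq`), and it commutes with the multiplications by nonzero complex
numbers and with `SU(2)` acting on `(z₁, z₂)` (`J_smul`, `J_rot`).  So the `J` without zeros are, up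
to positive factors, `SU(2)`-invariant almost complex structures on `CP²` which are compatible with
the Fubini-Study metric.

* The space of all forms in `S` which tame at least one `J` is open in `S` and contractible.  The
  same holds in every convex set `C` of forms which contains all `SU(2)`-invariant forms in the
  class.
* Every `SU(2)`-invariant form in `S` tames some `J`.  The space of the `SU(2)`-invariant forms
  in `S` is contractible.

Differential forms on `CP²` are treated as forms on `ℂ³ \ {0}` which are invariant under the
multiplications by nonzero complex numbers and vanish on the directions of the orbits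
(`IsForm`, `IsOne`, `Forms` in `Pool.Agent.K6.H10.SY.Defs`).
-/

set_option autoImplicit false

noncomputable section

namespace Pool.Agent.Results.MP_2fc7fa_gt.SymmetricStructures

open Pool.Agent.K6.H10.SY
open Pool.Agent.K6.H10.SU

/-- The symplectic forms in the class which tame an `SU(2)`-invariant structure are an open
contractible set, which contains the `SU(2)`-invariant forms; they are a contractible set, too. -/
theorem result (C : Set (V → Bil)) (hC : Convex ℝ C)
    (h : ∀ Ω, IsForm Ω → InClass Ω → SUInv Ω → Ω ∈ C) :
    ContractibleSpace {Ω : Forms | Ω ∈ S ∧ Ω.val ∈ C ∧ ∃ p : Par, TameF Ω.val p} ∧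
      IsOpen {Ω : Forms | ∃ p : Par, TameF Ω.val p} ∧
      (∀ Ω ∈ S, SUInv Ω.val → ∃ p : Par, TameF Ω.val p) ∧
      ContractibleSpace {Ω : Forms | Ω ∈ S ∧ SUInv Ω.val} :=
  ⟨contractible_tame hC h, isOpen_tame', fun _ h1 h2 => inv_tame h1 h2, contractible_SUInv⟩

end Pool.Agent.Results.MP_2fc7fa_gt.SymmetricStructures
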